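import Pool.Agent.H297R2.LG.Defs
import Pool.Agent.H382P.Choose

/-! # Task 19 (PAR): choice of the parameters, from the ideal inequality -/

open Complex Filter Topology Set MeasureTheory

namespace LG

open SP (Par)
open SP.ChooseAux

namespace ParAux

/-! ### the recursion -/

/-- the solution of the recursion `n q_n = ∑_{m=1}^n t_m q_{n-m}`, `q_0 = 1` -/
noncomputable def qr (t : ℕ → ℝ) : ℕ → ℝ
  | 0 => 1
  | n + 1 => (∑ m : Fin (n + 1), t (m + 1) * qr t (n - m)) / ((n : ℝ) + 1)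
decreasing_by omega

theorem qr_zero (t : ℕ → ℝ) : qr t 0 = 1 := by rw [qr]

theorem qr_succ (t : ℕ → ℝ) (n : ℕ) :
    qr t (n + 1) = (∑ m ∈ Finset.range (n + 1), t (m + 1) * qr t (n - m)) / ((n : ℝ) + 1) := by
  rw [qr, Finset.sum_range]

theorem isQ_qr (N : ℕ) (t : ℕ → ℝ) : IsQ N t (qr t) := by
  refine ⟨qr_zero t, fun n hn _ => ?_⟩
  obtain ⟨k, rfl⟩ : ∃ k, n = k + 1 := ⟨n - 1, by omega⟩
  rw [qr_succ]
  have h1 : ((k : ℝ) + 1) ≠ 0 := by positivity
  have h2 : ∑ m ∈ Finset.Icc 1 (k + 1), t m * qr t (k + 1 - m) =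
      ∑ m ∈ Finset.range (k + 1), t (m + 1) * qr t (k - m) := by
    have e : Finset.Icc 1 (k + 1) = (Finset.range (k + 1)).image (fun x => x + 1) := by
      ext x
      simp only [Finset.mem_Icc, Finset.mem_image, Finset.mem_range]
      constructor
      · rintro ⟨h1, h2⟩
        exact ⟨x - 1, by omega, by omega⟩
      · rintro ⟨y, hy, rfl⟩
        omega
    rw [e, Finset.sum_image (by intro a _ b _ h; simpa using h)]
    apply Finset.sum_congr rfl
    intro m _
    rw [Nat.add_sub_add_right]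
  rw [h2]
  push_cast
  field_simp

theorem qr_tendsto {X : Type*} {f : Filter X} {t : X → ℕ → ℝ} {t0 : ℕ → ℝ} {N : ℕ}
    (h : ∀ m, 1 ≤ m → m ≤ N → Tendsto (fun x => t x m) f (𝓝 (t0 m))) :
    ∀ n, n ≤ N → Tendsto (fun x => qr (t x) n) f (𝓝 (qr t0 n)) := by
  intro n
  induction n using Nat.strong_induction_on with
  | _ n ih =>
    intro hn
    rcases n with _ | n
    · simp only [qr_zero]
      exact tendsto_const_nhds
    · simp only [qr_succ]
      apply Tendsto.div_const
      apply tendsto_finsetSum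
      intro m hm
      rw [Finset.mem_range] at hm
      exact (h (m + 1) (by omega) (by omega)).mul (ih (n - m) (by omega) (by omega))

/-! ### the integrals -/

theorem lim_int {l r : ℝ} (hl : 0 < l) (hlr : l < r) (hr : r ≤ 1) {h : ℝ → ℝ}
    (hh : ContinuousOn h (Set.Icc l r)) {k : ℕ} (hk : 1 ≤ k) :
    Tendsto (fun ε : ℝ => ∫ u in (0 : ℝ)..1, bump l r ε u ^ k * h u) (𝓝[>] 0)
      (𝓝 (∫ u in l..r, h u)) := by
  have hsupp : ∀ ε : ℝ, 0 < ε → Function.support (fun u => bump l r ε u ^ k * h u) ⊆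
      Set.Ioc l r := by
    intro ε hε u hu
    rw [Function.mem_support] at hu
    by_contra hcon
    apply hu
    rw [Set.mem_Ioc, not_and_or, not_lt, not_le] at hcon
    have h0 : bump l r ε u = 0 := by
      rcases hcon with h | h
      · exact bump_zero_left hε (by linarith)
      · exact bump_zero_right hε (by linarith)
    rw [h0, zero_pow (by omega), zero_mul]
  have heq : ∀ᶠ ε : ℝ in 𝓝[>] 0, ∫ u in l..r, bump l r ε u ^ k * h u =
      ∫ u in (0 : ℝ)..1, bump l r ε u ^ k * h u := by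
    filter_upwards [self_mem_nhdsWithin] with ε hε
    have hε' : 0 < ε := hε
    rw [intervalIntegral.integral_eq_integral_of_support_subset (hsupp ε hε'),
      intervalIntegral.integral_eq_integral_of_support_subset
        ((hsupp ε hε').trans (Set.Ioc_subset_Ioc hl.le hr))]
  refine Tendsto.congr' heq ?_
  have huIcc : Set.uIcc l r = Set.Icc l r := Set.uIcc_of_le hlr.le
  have huIoc : Set.uIoc l r = Set.Ioc l r := Set.uIoc_of_le hlr.le
  refine intervalIntegral.tendsto_integral_filter_of_dominated_convergence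
    (fun u => |h u|) ?_ ?_ ?_ ?_
  · refine Eventually.of_forall fun ε => ?_
    rw [huIoc]
    apply AEStronglyMeasurable.mul
    · exact ((bump_contDiff l r ε).continuous.pow k).aestronglyMeasurable
    · exact (hh.mono Set.Ioc_subset_Icc_self).aestronglyMeasurable measurableSet_Ioc
  · refine Eventually.of_forall fun ε => Eventually.of_forall fun u _ => ?_
    rw [norm_mul, Real.norm_eq_abs, Real.norm_eq_abs, abs_pow, abs_of_nonneg (bump_nonneg _ _ _ _)]
    have h1 : bump l r ε u ^ k ≤ 1 := pow_le_one₀ (bump_nonneg _ _ _ _) (bump_le_one _ _ _ _)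
    exact (mul_le_mul_of_nonneg_right h1 (abs_nonneg _)).trans (one_mul _).le
  · exact (ContinuousOn.intervalIntegrable (by rw [huIcc]; exact hh)).abs
  · have h1 : ∀ᵐ u : ℝ, u ≠ r := by
      have := Set.Countable.ae_notMem (Set.countable_singleton r) (volume : Measure ℝ)
      filter_upwards [this] with u hu
      simpa using hu
    filter_upwards [h1] with u hu hu'
    rw [huIoc] at hu'
    have hur : u < r := lt_of_le_of_ne hu'.2 hu
    have hul : l < u := hu'.1
    have h2 : ∀ᶠ ε : ℝ in 𝓝[>] 0, h u = bump l r ε u ^ k * h u := by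
      have h3 : Set.Ioo (0 : ℝ) (min (u - l) (r - u) / 2) ∈ 𝓝[>] (0 : ℝ) := by
        apply Ioo_mem_nhdsGT
        have : 0 < min (u - l) (r - u) := lt_min (by linarith) (by linarith)
        linarith
      filter_upwards [h3] with ε hε
      have h4 : ε < min (u - l) (r - u) / 2 := hε.2
      have h5 := min_le_left (u - l) (r - u)
      have h6 := min_le_right (u - l) (r - u)
      rw [bump_one hε.1 (by linarith) (by linarith), one_pow, one_mul]
    exact Tendsto.congr' h2 tendsto_const_nhds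

/-! ### the parameters -/

section

variable (B0 : ℕ)

/-- the width of a bin -/
noncomputable def wB : ℝ := 999 / 1000 / (2 * B0)

/-- left endpoint of the ideal sub-bin -/
noncomputable def lB (j : ℕ) : ℝ := j * wB B0 * Real.exp (-1 / j)

/-- right endpoint of the ideal sub-bin -/
noncomputable def rB (j : ℕ) : ℝ := j * wB B0

variable {B0}

theorem wB_pos (h : 1 ≤ B0) : 0 < wB B0 := by
  have : (1 : ℝ) ≤ B0 := by exact_mod_cast h
  unfold wB
  positivity

theorem lB_pos (h : 1 ≤ B0) {j : ℕ} (hj : 1 ≤ j) : 0 < lB B0 j := by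
  have := wB_pos h
  have : (1 : ℝ) ≤ j := by exact_mod_cast hj
  unfold lB
  positivity

theorem lB_lt_rB (h : 1 ≤ B0) {j : ℕ} (hj : 1 ≤ j) : lB B0 j < rB B0 j := by
  have h1 := wB_pos h
  have h2 : (1 : ℝ) ≤ j := by exact_mod_cast hj
  unfold lB rB
  have h3 : Real.exp (-1 / (j : ℝ)) < 1 := by
    rw [Real.exp_lt_one_iff]
    exact div_neg_of_neg_of_pos (by norm_num) (by linarith)
  have h4 : 0 < (j : ℝ) * wB B0 := by positivity
  nlinarith

theorem lB_ge (h : 1 ≤ B0) {j : ℕ} (hj : 1 ≤ j) : ((j : ℝ) - 1) * wB B0 ≤ lB B0 j := by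
  have h1 := wB_pos h
  have h2 : (1 : ℝ) ≤ j := by exact_mod_cast hj
  have h3 := Real.add_one_le_exp (-1 / (j : ℝ))
  have h4 : ((j : ℝ) - 1) * wB B0 = j * wB B0 * (-1 / (j : ℝ) + 1) := by
    field_simp
    ring
  unfold lB
  rw [h4]
  exact mul_le_mul_of_nonneg_left h3 (by positivity)

theorem rB_le_one (h : 1 ≤ B0) {j : ℕ} (hj : j ≤ 2 * B0) : rB B0 j ≤ 1 := by
  have h1 : (1 : ℝ) ≤ B0 := by exact_mod_cast h
  have h2 : (j : ℝ) ≤ 2 * B0 := by exact_mod_cast hj
  unfold rB wB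
  rw [mul_div_assoc', div_le_one (by positivity)]
  nlinarith

/-- the parameters -/
noncomputable def PP (h : 1 ≤ B0) (ε : ℝ) (hε : 0 < ε) : Par where
  c := 3 / 4
  a := 1
  κ := 1 / 1000
  m := ε
  B := 2 * B0
  b := fun j u => if 2 ≤ j ∧ j ≤ 2 * B0 then bump (lB B0 j) (rB B0 j) ε u / u else 0
  hc := by norm_num
  hc1 := by norm_num
  ha := by norm_num
  ha1 := by norm_num
  hκ := by norm_num
  hκ1 := by norm_num
  hB := by omega
  hm := hε
  hb := by
    intro j
    by_cases hj : 2 ≤ j ∧ j ≤ 2 * B0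
    · simp only [hj, and_self, if_true]
      exact div_contDiff (lB_pos h (by omega)) hε
    · simp only [hj, if_false]
      exact contDiff_const
  hb0 := by
    intro j u hne
    by_cases hj : 2 ≤ j ∧ j ≤ 2 * B0
    · rw [if_pos hj] at hne
      have hB0 : (1 : ℝ) ≤ B0 := by exact_mod_cast h
      have e1 : ((j : ℝ) - 1) * (1 - 1 / 1000) / ((2 * B0 : ℕ) : ℝ) = ((j : ℝ) - 1) * wB B0 := by
        unfold wB
        push_cast
        ring
      have e2 : (j : ℝ) * (1 - 1 / 1000) / ((2 * B0 : ℕ) : ℝ) = rB B0 j := by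
        unfold rB wB
        push_cast
        ring
      refine ⟨hj.1, hj.2, ?_, ?_⟩
      · by_contra hcon
        push Not at hcon
        apply hne
        rw [bump_zero_left hε, zero_div]
        have h1 := lB_ge h (j := j) (by omega)
        linarith
      · by_contra hcon
        push Not at hcon
        apply hne
        rw [bump_zero_right hε, zero_div]
        linarith
    · rw [if_neg hj] at hne
      exact absurd rfl hne
  hb1 := by
    intro j u
    by_cases hj : 2 ≤ j ∧ j ≤ 2 * B0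
    · rw [if_pos hj]
      by_cases hu : u ≤ 0
      · rw [bump_zero_left hε (by have := lB_pos h (j := j) (by omega); linarith)]
        simp
      · push Not at hu
        refine ⟨div_nonneg (bump_nonneg _ _ _ _) hu.le, ?_⟩
        have : u * (bump (lB B0 j) (rB B0 j) ε u / u) = bump (lB B0 j) (rB B0 j) ε u := by
          field_simp
        rw [this]
        exact bump_le_one _ _ _ _
    · rw [if_neg hj]
      simp

theorem PP_b (h : 1 ≤ B0) {ε : ℝ} (hε : 0 < ε) {j : ℕ} (hj : 2 ≤ j) (hj' : j ≤ 2 * B0) (u : ℝ) :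
    (PP h ε hε).b j u = bump (lB B0 j) (rB B0 j) ε u / u := by
  change (if 2 ≤ j ∧ j ≤ 2 * B0 then bump (lB B0 j) (rB B0 j) ε u / u else 0) = _
  rw [if_pos ⟨hj, hj'⟩]

theorem PP_b_one (h : 1 ≤ B0) {ε : ℝ} (hε : 0 < ε) {j : ℕ} (hj : j < 2) (u : ℝ) :
    (PP h ε hε).b j u = 0 := by
  change (if 2 ≤ j ∧ j ≤ 2 * B0 then bump (lB B0 j) (rB B0 j) ε u / u else 0) = _
  rw [if_neg (by omega)]

open Classical in
/-- the sequence `t` as a function of the margin -/
noncomputable def tP (h : 1 ≤ B0) (r ε : ℝ) (m : ℕ) : ℝ :=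
  if hε : 0 < ε then tm (PP h ε hε) r m else 0

open Classical in
/-- the integrals as functions of the margin -/
noncomputable def sP (h : 1 ≤ B0) (c ε : ℝ) (m : ℕ) : ℝ :=
  if hε : 0 < ε then sm0 (PP h ε hε) c m else 0

theorem tP_tendsto (h : 1 ≤ B0) (r : ℝ) {m : ℕ} (hm : 1 ≤ m) (hm' : m ≤ 2 * B0) :
    Tendsto (fun ε => tP h r ε m) (𝓝[>] 0) (𝓝 (if 2 ≤ m then r ^ 2 else 0)) := by
  rcases Nat.lt_or_ge m 2 with h2 | h2
  · rw [if_neg (by omega)]
    have h1 : ∀ᶠ ε : ℝ in 𝓝[>] 0, 0 = tP h r ε m := by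
      filter_upwards [self_mem_nhdsWithin] with ε hε
      have hε' : 0 < ε := hε
      rw [tP, dif_pos hε', tm]
      simp only [PP_b_one h hε' h2]
      simp
    exact Tendsto.congr' h1 tendsto_const_nhds
  · rw [if_pos h2]
    have hl := lB_pos h hm
    have hlr := lB_lt_rB h hm
    have hr := rB_le_one h hm'
    have hmr : (0 : ℝ) < m := by exact_mod_cast (by omega : 0 < m)
    have hc : ContinuousOn (fun u : ℝ => u⁻¹) (Set.Icc (lB B0 m) (rB B0 m)) := by
      apply continuousOn_inv₀.mono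
      intro u hu
      have : 0 < u := lt_of_lt_of_le hl hu.1
      simpa using this.ne'
    have h1 := lim_int hl hlr hr hc (k := 2) (by norm_num)
    rw [integral_inv_of_pos hl (hl.trans hlr)] at h1
    have hlog : Real.log (rB B0 m / lB B0 m) = 1 / m := by
      have : rB B0 m / lB B0 m = Real.exp (1 / m) := by
        have := wB_pos h
        unfold rB lB
        rw [neg_div, Real.exp_neg]
        field_simp
      rw [this, Real.log_exp]
    rw [hlog] at h1
    have h3 := h1.const_mul ((m : ℝ) * r ^ 2)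
    have h4 : (m : ℝ) * r ^ 2 * (1 / m) = r ^ 2 := by field_simp
    rw [h4] at h3
    refine Tendsto.congr' ?_ h3
    filter_upwards [self_mem_nhdsWithin] with ε hε
    have hε' : 0 < ε := hε
    rw [tP, dif_pos hε', tm]
    congr 1
    apply intervalIntegral.integral_congr
    intro u _
    simp only
    rw [PP_b h hε' h2 hm']
    by_cases hu : u = 0
    · rw [hu, bump_zero_left hε' (by linarith)]
      simp
    · field_simp

theorem sP_tendsto (h : 1 ≤ B0) (c : ℝ) {m : ℕ} (hm : 2 ≤ m) (hm' : m ≤ 2 * B0) :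
    Tendsto (fun ε => sP h c ε m) (𝓝[>] 0)
      (𝓝 (∫ u in (lB B0 m)..(rB B0 m), Real.sin (Real.pi * c * u) / u)) := by
  have hl := lB_pos h (j := m) (by omega)
  have hlr := lB_lt_rB h (j := m) (by omega)
  have hr := rB_le_one h hm'
  have hc : ContinuousOn (fun u : ℝ => Real.sin (Real.pi * c * u) / u)
      (Set.Icc (lB B0 m) (rB B0 m)) := by
    apply ContinuousOn.div (by fun_prop) continuousOn_id
    intro u hu
    have : 0 < u := lt_of_lt_of_le hl hu.1
    exact this.ne'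
  have h1 := lim_int hl hlr hr hc (k := 1) le_rfl
  refine Tendsto.congr' ?_ h1
  filter_upwards [self_mem_nhdsWithin] with ε hε
  have hε' : 0 < ε := hε
  rw [sP, dif_pos hε', sm0]
  apply intervalIntegral.integral_congr
  intro u _
  simp only
  rw [PP_b h hε' hm hm', pow_one]
  ring

end

end ParAux

open ParAux in
/-- Choice of the parameters: the ideal inequality, for the sequence `t_1 = 0`, `t_m = r²` for
`m ≥ 2` and the ideal sub-bins, gives parameters with smooth weights. -/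
theorem PAR_of (B0 : ℕ) (hB0 : 1 ≤ B0) (r : ℝ) (F : ℕ → ℝ) (c : ℝ)
    (hI : ∀ q : ℕ → ℝ, IsQ B0 (fun m => if 2 ≤ m then r ^ 2 else 0) q → 0 < SF B0 F q ∧
      c * SF B0 F q < SF B0 F q + 4 * r / Real.pi *
        ∑ m ∈ Finset.Icc 2 B0,
          (∫ u in ((m : ℝ) * (999 / 1000 / (2 * (B0 : ℝ))) * Real.exp (-1 / (m : ℝ)))..
            ((m : ℝ) * (999 / 1000 / (2 * (B0 : ℝ)))), Real.sin (Real.pi * c * u) / u) *
            SM B0 F q m) :
    ∃ (P : Par) (q : ℕ → ℝ), P.B = 2 * B0 ∧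
      IsQ B0 (tm P r) q ∧ 0 < SF B0 F q ∧
      c * SF B0 F q < SF B0 F q +
        4 * r / Real.pi * ∑ m ∈ Finset.Icc 2 B0, sm0 P c m * SM B0 F q m := by
  obtain ⟨h1, h2⟩ := hI (qr (fun m => if 2 ≤ m then r ^ 2 else 0)) (isQ_qr _ _)
  set q0 := qr (fun m => if 2 ≤ m then r ^ 2 else 0) with hq0
  have hq : ∀ n, n ≤ B0 → Tendsto (fun ε : ℝ => qr (tP hB0 r ε) n) (𝓝[>] 0) (𝓝 (q0 n)) := by
    rw [hq0]
    apply qr_tendsto
    intro m hm hm'
    exact tP_tendsto hB0 r hm (by omega)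
  have hSF : Tendsto (fun ε : ℝ => SF B0 F (qr (tP hB0 r ε))) (𝓝[>] 0) (𝓝 (SF B0 F q0)) := by
    unfold SF
    apply tendsto_finsetSum
    intro n hn
    rw [Finset.mem_range] at hn
    exact (hq n (by omega)).const_mul _
  have hSM : ∀ m, Tendsto (fun ε : ℝ => SM B0 F (qr (tP hB0 r ε)) m) (𝓝[>] 0)
      (𝓝 (SM B0 F q0 m)) := by
    intro m
    unfold SM
    apply tendsto_finsetSum
    intro n hn
    rw [Finset.mem_range] at hn
    exact (hq n (by omega)).const_mul _
  have hR : Tendsto (fun ε : ℝ => SF B0 F (qr (tP hB0 r ε)) +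
      4 * r / Real.pi * ∑ m ∈ Finset.Icc 2 B0, sP hB0 c ε m * SM B0 F (qr (tP hB0 r ε)) m)
      (𝓝[>] 0) (𝓝 (SF B0 F q0 + 4 * r / Real.pi * ∑ m ∈ Finset.Icc 2 B0,
        (∫ u in (lB B0 m)..(rB B0 m), Real.sin (Real.pi * c * u) / u) * SM B0 F q0 m)) := by
    apply hSF.add
    apply Tendsto.const_mul
    apply tendsto_finsetSum
    intro m hm
    rw [Finset.mem_Icc] at hm
    exact (sP_tendsto hB0 c hm.1 (by omega)).mul (hSM m)
  have hL : Tendsto (fun ε : ℝ => c * SF B0 F (qr (tP hB0 r ε))) (𝓝[>] 0)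
      (𝓝 (c * SF B0 F q0)) := hSF.const_mul c
  have e1 := hSF.eventually (lt_mem_nhds h1)
  have e2 := hL.eventually_lt hR h2
  obtain ⟨ε, hε1, hε2, hε3⟩ := (e1.and (e2.and self_mem_nhdsWithin)).exists
  have hε : 0 < ε := hε3
  refine ⟨PP hB0 ε hε, qr (tP hB0 r ε), rfl, ?_, hε1, ?_⟩
  · have : tm (PP hB0 ε hε) r = tP hB0 r ε := by
      funext m
      rw [tP, dif_pos hε]
    rw [this]
    exact isQ_qr _ _
  · have h3 : ∀ m, sm0 (PP hB0 ε hε) c m = sP hB0 c ε m := by
      intro m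
      rw [sP, dif_pos hε]
    simp only [h3]
    exact hε2

/-- The same with the numerical parameters of the theorem (the hypothesis is the statement `IDEAL`
with its definitions unfolded). -/
theorem PAR_of_ideal (hI : ∃ B0 : ℕ, 10 ≤ B0 ∧ ∀ q : ℕ → ℝ,
    IsQ B0 (fun m => if 2 ≤ m then 5 else 0) q →
      0 < SF B0 (fun n => 12 - 11 * ((n : ℝ) / B0)) q ∧
      (357 / 100) * SF B0 (fun n => 12 - 11 * ((n : ℝ) / B0)) q <
        SF B0 (fun n => 12 - 11 * ((n : ℝ) / B0)) q + 4 * Real.sqrt 5 / Real.pi *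
        ∑ m ∈ Finset.Icc 2 B0,
          (∫ u in ((m : ℝ) * ((999 / 1000) / (2 * (B0 : ℝ))) * Real.exp (-1 / (m : ℝ)))..
            ((m : ℝ) * ((999 / 1000) / (2 * (B0 : ℝ)))),
              Real.sin (Real.pi * (357 / 100) * u) / u) *
            SM B0 (fun n => 12 - 11 * ((n : ℝ) / B0)) q m) :
    ∃ (P : Par) (B0 : ℕ) (r : ℝ) (F q : ℕ → ℝ), P.B = 2 * B0 ∧ 0 < r ∧
    IsQ B0 (tm P r) q ∧ 0 < SF B0 F q ∧
    (357 / 100) * SF B0 F q < SF B0 F q +
      4 * r / Real.pi * ∑ m ∈ Finset.Icc 2 B0, sm0 P (357 / 100) m * SM B0 F q m := by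
  obtain ⟨B0, h10, h⟩ := hI
  have h5 : Real.sqrt 5 ^ 2 = 5 := Real.sq_sqrt (by norm_num)
  obtain ⟨P, q, e1, e2, e3, e4⟩ := PAR_of B0 (by omega) (Real.sqrt 5)
    (fun n => 12 - 11 * ((n : ℝ) / B0)) (357 / 100) (by rw [h5]; exact h)
  exact ⟨P, B0, Real.sqrt 5, _, q, e1, Real.sqrt_pos.2 (by norm_num), e2, e3, e4⟩

end LG
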